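import Pool.Agent.Helper35.IL.Stm
import Pool.Agent.Helper56.EM.Red
import Pool.Agent.Helper35.EM.ConjCases

/-! Project IL, package BAS: the base. -/

set_option autoImplicit false

namespace Pool.Agent.Helper17.IL

open Pool.Agent.Helper35.EM Pool.Agent.Helper56.SA Pool.Agent.Helper56.EM Pool.Agent.Helper56.NL
  Pool.Agent.Helper56.HS Pool.Agent.Helper35.IL Module Submodule Set ComplexConjugate

theorem gpos (D : ℕ) (k : ℕ) : 0 < g D k := by
  induction k with
  | zero => exact Nat.one_pos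
  | succ k ih => exact Nat.mul_pos ih (Nat.pow_pos (by omega))

theorem gmono {D : ℕ} (hD : 1 ≤ D) : StrictMono (g D) := by
  refine strictMono_nat_of_lt_succ fun n => ?_
  show g D n < g D n * (D + 1) ^ (n + 1)
  have h1 : 1 < (D + 1) ^ (n + 1) := Nat.one_lt_pow (by omega) (by omega)
  calc g D n = g D n * 1 := (mul_one _).symm
    _ < g D n * (D + 1) ^ (n + 1) := Nat.mul_lt_mul_of_pos_left h1 (gpos D n)

/-- the generators -/
noncomputable def gg (r e : ℕ → ℕ) (s : ℕ → ℝ) (ε w : ℕ → ℂ) (i : ℕ) : ℂ × ℂ :=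
  (yy r e s ε i, w i)

/-- the first `N` generators -/
noncomputable def gv (r e : ℕ → ℕ) (s : ℕ → ℝ) (ε w : ℕ → ℂ) (N : ℕ) (i : Fin N) : ℂ × ℂ :=
  gg r e s ε w i

/-- the base -/
noncomputable def P0 (r e : ℕ → ℕ) (s : ℕ → ℝ) (ε w : ℕ → ℂ) : Submodule ℚ (ℂ × ℂ) :=
  span ℚ (range (gg r e s ε w))

variable {r e : ℕ → ℕ} {s : ℕ → ℝ} {ε w : ℕ → ℂ}

theorem T_fst (N : ℕ) (c : Fin N → ℚ) :
    (T (gv r e s ε w N) c).1 = ∑ i, (c i : ℂ) * yy r e s ε i := by
  rw [T_apply, Prod.fst_sum]
  refine Finset.sum_congr rfl fun i _ => ?_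
  rw [Prod.smul_fst, Rat.smul_def]
  rfl

theorem T_snd (N : ℕ) (c : Fin N → ℚ) :
    (T (gv r e s ε w N) c).2 = ∑ i, c i • w i := by
  rw [T_apply, Prod.snd_sum]
  rfl

theorem mem_span_N {q : ℂ × ℂ} (hq : q ∈ P0 r e s ε w) :
    ∃ N : ℕ, q ∈ LinearMap.range (T (gv r e s ε w N)) := by
  have h1 : P0 r e s ε w = ⨆ N : ℕ, LinearMap.range (T (gv r e s ε w N)) := by
    apply le_antisymm
    · unfold P0
      rw [Submodule.span_le]
      rintro _ ⟨i, rfl⟩
      apply Submodule.mem_iSup_of_mem (i + 1)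
      rw [range_T]
      exact Submodule.subset_span ⟨⟨i, Nat.lt_succ_self i⟩, rfl⟩
    · refine iSup_le fun N => ?_
      rw [range_T, Submodule.span_le]
      rintro _ ⟨i, rfl⟩
      exact Submodule.subset_span ⟨i, rfl⟩
  rw [h1, Submodule.mem_iSup_of_directed] at hq
  · exact hq
  · apply Monotone.directed_le
    intro a b hab
    show LinearMap.range (T (gv r e s ε w a)) ≤ LinearMap.range (T (gv r e s ε w b))
    rw [range_T, range_T]
    apply Submodule.span_mono
    rintro _ ⟨i, rfl⟩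
    exact ⟨⟨i, i.2.trans_le hab⟩, rfl⟩

theorem range_mono {a b : ℕ} (hab : a ≤ b) :
    LinearMap.range (T (gv r e s ε w a)) ≤ LinearMap.range (T (gv r e s ε w b)) := by
  rw [range_T, range_T]
  apply Submodule.span_mono
  rintro _ ⟨i, rfl⟩
  exact ⟨⟨i, i.2.trans_le hab⟩, rfl⟩

theorem range_le (N : ℕ) : LinearMap.range (T (gv r e s ε w N)) ≤ P0 r e s ε w := by
  rw [range_T, Submodule.span_le]
  rintro _ ⟨i, rfl⟩
  exact Submodule.subset_span ⟨i, rfl⟩

theorem fin_le {U : Submodule ℚ (ℂ × ℂ)} (hU : U ≤ P0 r e s ε w) (hf : FiniteDimensional ℚ U) :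
    ∃ N : ℕ, U ≤ LinearMap.range (T (gv r e s ε w N)) := by
  obtain ⟨S, hS⟩ := (Module.Finite.iff_fg.1 hf : U.FG)
  have h1 : ∀ x : ℂ × ℂ, ∃ N : ℕ, x ∈ S → x ∈ LinearMap.range (T (gv r e s ε w N)) := by
    intro x
    by_cases hx : x ∈ S
    · obtain ⟨N, hN⟩ := mem_span_N (hU (hS ▸ Submodule.subset_span hx : x ∈ U))
      exact ⟨N, fun _ => hN⟩
    · exact ⟨0, fun h => absurd h hx⟩
  choose f hf using h1
  refine ⟨S.sup f, ?_⟩
  rw [← hS, Submodule.span_le]
  intro x hx
  exact range_mono (Finset.le_sup (Finset.mem_coe.1 hx)) (hf x hx)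

section

variable (hRK : S_RKT) (hr : RF r) (he : StrictMono e) (he0 : ∀ i, 0 < e i)
  (hs : FreeR (fun k => (s k : ℂ))) (hε : ∀ i, ε i = 1 ∨ ε i = Complex.I)
  (hw : LinearIndependent ℚ w) (hwa : ∀ i, Complex.exp (w i) ∈ M.closure ∅)

include hw in
theorem snd_zero (N : ℕ) (c : Fin N → ℚ) (h : (T (gv r e s ε w N) c).2 = 0) : c = 0 := by
  rw [T_snd] at h
  have h1 : LinearIndependent ℚ (fun i : Fin N => w i) := hw.comp _ Fin.val_injective
  rw [Fintype.linearIndependent_iff] at h1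
  funext i
  exact h1 c h i

include hw in
theorem T_inj (N : ℕ) : Function.Injective (T (gv r e s ε w N)) := by
  rw [← LinearMap.ker_eq_bot, LinearMap.ker_eq_bot']
  intro c hc
  exact snd_zero hw N c (by rw [hc]; rfl)

include hwa in
theorem exp_alg (N : ℕ) (c : Fin N → ℚ) : Complex.exp (T (gv r e s ε w N) c).2 ∈ M.closure ∅ := by
  rw [T_snd]
  exact cl_exp_sum _ _ fun i _ => cl_exp_smul _ (hwa i)

include hRK hr he he0 hs hε in
theorem fst_alg (N : ℕ) (c : Fin N → ℚ) (h : (T (gv r e s ε w N) c).1 ∈ M.closure ∅) :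
    c = 0 := by
  by_contra hc
  obtain ⟨f, hf1, hf2⟩ := hRK r hr e he he0 s hs ε hε N (span ℚ {c})
  have e1 : finrank ℚ (span ℚ {c}) = 1 := finrank_span_singleton hc
  have e2 : r (finrank ℚ (span ℚ {c})) = 1 := by rw [e1, hr.one]
  have hi : 0 < r (finrank ℚ (span ℚ {c})) := by rw [e2]; exact one_pos
  obtain ⟨a, ha⟩ := mem_span_singleton.1 (hf1 ⟨0, hi⟩)
  have h1 := (hf2.transcendental ⟨0, hi⟩)
  apply h1
  rw [← mem_cl_empty, ← ha]
  have h2 : ∑ i, (((a • c) i : ℚ) : ℂ) * yy r e s ε i = a • (T (gv r e s ε w N) c).1 := by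
    rw [T_fst, Finset.smul_sum]
    refine Finset.sum_congr rfl fun i _ => ?_
    rw [Rat.smul_def, Pi.smul_apply, smul_eq_mul]
    push_cast
    ring
  rw [h2]
  exact cl_smul a h

include hε in
theorem yy_mem (i n : ℕ) (h : r (i + 1) ≤ n) :
    yy r e s ε i ∈ M.closure ((fun k => (s k : ℂ)) '' Iio n) := by
  unfold yy
  refine cl_mul ?_ (cl_sum _ _ fun j hj => cl_pow _ (cl_self ⟨j, ?_, rfl⟩))
  · rcases hε i with h | h
    · rw [h]; exact cl_one _
    · rw [h]; exact cl_I _
  · exact (Finset.mem_range.1 hj).trans_le h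

include hr in
theorem r_mono : Monotone r := monotone_nat_of_le_succ hr.mono

include hr hε in
theorem fst_le (N : ℕ) (c : Fin N → ℚ) :
    (T (gv r e s ε w N) c).1 ∈ M.closure ((fun k => (s k : ℂ)) '' Iio (r N)) := by
  rw [T_fst]
  refine cl_sum _ _ fun i _ => ?_
  rw [← Rat.smul_def]
  exact cl_smul _ (yy_mem hε i _ (r_mono hr (Nat.succ_le_of_lt i.2)))

end

theorem all_mem {v : ℂ} (hv : v ∈ span ℚ (range w)) : ∃ x, (x, v) ∈ P0 r e s ε w := by
  induction hv using Submodule.span_induction with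
  | mem x hx =>
    obtain ⟨k, rfl⟩ := hx
    exact ⟨yy r e s ε k, subset_span ⟨k, rfl⟩⟩
  | zero => exact ⟨0, zero_mem _⟩
  | add x y _ _ hx hy =>
    obtain ⟨a, ha⟩ := hx
    obtain ⟨b, hb⟩ := hy
    exact ⟨a + b, add_mem ha hb⟩
  | smul c x _ hx =>
    obtain ⟨a, ha⟩ := hx
    exact ⟨c • a, (P0 r e s ε w).smul_mem c ha⟩

theorem bas : S_BAS := by
  intro hRK hDG hDEG hENU D hD r hr s hs hs0
  classical
  obtain ⟨w, hw0, hw, hwa, hwc, hwsp⟩ := hENU
  obtain ⟨ε, hεdef⟩ : ∃ ε : ℕ → ℂ, ε = fun i => if conj (w i) = w i then 1 else Complex.I :=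
    ⟨_, rfl⟩
  have hε : ∀ i, ε i = 1 ∨ ε i = Complex.I := by
    intro i
    rw [hεdef]
    by_cases h : conj (w i) = w i
    · left; simp only [h, if_true]
    · right; simp only [h, if_false]
  have hmem : ∀ q ∈ P0 r (g D) s ε w, ∃ (N : ℕ) (c : Fin N → ℚ), T (gv r (g D) s ε w N) c = q := by
    intro q hq
    obtain ⟨N, c, hc⟩ := mem_span_N hq
    exact ⟨N, c, hc⟩
  have hmono := gmono hD
  have hpos := gpos D
  -- conjugates of the generators
  have hgc : ∀ i, (conj (yy r (g D) s ε i), conj (w i)) = gg r (g D) s ε w i ∨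
      (conj (yy r (g D) s ε i), conj (w i)) = - gg r (g D) s ε w i := by
    intro i
    have hsum : conj (∑ l ∈ Finset.range (r (i + 1)), (s l : ℂ) ^ g D i) =
        ∑ l ∈ Finset.range (r (i + 1)), (s l : ℂ) ^ g D i := by
      rw [map_sum]
      refine Finset.sum_congr rfl fun l _ => ?_
      rw [map_pow, Complex.conj_ofReal]
    by_cases h : conj (w i) = w i
    · left
      have h1 : ε i = 1 := by rw [hεdef]; simp only [h, if_true]
      refine Prod.ext ?_ h
      show conj (yy r (g D) s ε i) = yy r (g D) s ε i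
      unfold yy
      rw [map_mul, hsum, h1, map_one]
    · right
      have h1 : ε i = Complex.I := by rw [hεdef]; simp only [h, if_false]
      have h2 : conj (w i) = - w i := (hwc i).resolve_left h
      refine Prod.ext ?_ h2
      show conj (yy r (g D) s ε i) = - yy r (g D) s ε i
      unfold yy
      rw [map_mul, hsum, h1, Complex.conj_I, neg_mul]
  refine ⟨P0 r (g D) s ε w, ⟨⟨?_, ?_, ?_, ?_⟩, ?_, ?_, ?_, ?_, ?_, ?_, ?_, ?_⟩⟩
  · intro p hp
    obtain ⟨N, c, rfl⟩ := hmem p hp
    exact cl_mono (image_subset_range _ _) (fst_le hr hε N c)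
  · intro p hp
    obtain ⟨N, c, rfl⟩ := hmem p hp
    exact cl_mono (empty_subset _) (exp_alg hwa N c)
  · intro p hp h0
    obtain ⟨N, c, rfl⟩ := hmem p hp
    rw [fst_alg hRK hr hmono hpos hs hε N c (by rw [h0]; exact cl_zero ∅), map_zero]
  · intro p hp h0
    obtain ⟨N, c, rfl⟩ := hmem p hp
    rw [snd_zero hw N c h0, map_zero]
  · -- conjugation
    intro p hp
    unfold P0 at hp
    induction hp using Submodule.span_induction with
    | mem x hx =>
      obtain ⟨i, rfl⟩ := hx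
      have hi : gg r (g D) s ε w i ∈ P0 r (g D) s ε w := subset_span ⟨i, rfl⟩
      rcases hgc i with h | h
      · show (conj (yy r (g D) s ε i), conj (w i)) ∈ _
        rw [h]; exact hi
      · show (conj (yy r (g D) s ε i), conj (w i)) ∈ _
        rw [h]; exact neg_mem hi
    | zero =>
      simp only [Prod.fst_zero, Prod.snd_zero, map_zero]
      exact zero_mem _
    | add x y _ _ hx hy =>
      have := add_mem hx hy
      simp only [Prod.mk_add_mk, ← map_add] at this
      exact this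
    | smul c x _ hx =>
      have := (P0 r (g D) s ε w).smul_mem c hx
      have e1 : c • (conj x.1, conj x.2) = (conj (c • x).1, conj (c • x).2) := by
        refine Prod.ext ?_ ?_
        · show c • conj x.1 = conj (c • x.1)
          rw [Rat.smul_def, Rat.smul_def, map_mul, map_ratCast]
        · show c • conj x.2 = conj (c • x.2)
          rw [Rat.smul_def, Rat.smul_def, map_mul, map_ratCast]
      rwa [e1] at this
  · -- the period
    have h0 : gg r (g D) s ε w 0 ∈ P0 r (g D) s ε w := subset_span ⟨0, rfl⟩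
    have h1 := (P0 r (g D) s ε w).smul_mem (2 : ℚ) h0
    have hne : conj (w 0) ≠ w 0 := by
      rw [hw0, map_mul, Complex.conj_ofReal, Complex.conj_I]
      intro h
      have h2 := congrArg Complex.im h
      simp at h2
      have := Real.pi_pos
      linarith
    have hε0 : ε 0 = Complex.I := by rw [hεdef]; simp only [hne, if_false]
    have hy0 : yy r (g D) s ε 0 = Real.pi * Complex.I := by
      unfold yy
      rw [hε0, hr.one, Finset.sum_range_one, hs0]
      show Complex.I * (Real.pi : ℂ) ^ (1 : ℕ) = _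
      ring
    have e1 : (2 : ℚ) • gg r (g D) s ε w 0 =
        (2 * (Real.pi : ℂ) * Complex.I, 2 * (Real.pi : ℂ) * Complex.I) := by
      refine Prod.ext ?_ ?_
      · show (2 : ℚ) • yy r (g D) s ε 0 = 2 * (Real.pi : ℂ) * Complex.I
        rw [hy0, Rat.smul_def]; push_cast; ring
      · show (2 : ℚ) • w 0 = 2 * (Real.pi : ℂ) * Complex.I
        rw [hw0, Rat.smul_def]; push_cast; ring
    rwa [e1] at h1
  · intro p hp
    obtain ⟨N, c, rfl⟩ := hmem p hp
    exact exp_alg hwa N c
  · intro v hv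
    exact all_mem (hwsp v hv)
  · intro p hp h0
    obtain ⟨N, c, rfl⟩ := hmem p hp
    rw [fst_alg hRK hr hmono hpos hs hε N c h0, map_zero]
  · -- degree
    intro n u hu hi f hf hf0 hfD
    have h1 : ∃ N : ℕ, ∀ i, ∃ c : Fin N → ℚ, (T (gv r (g D) s ε w N) c).1 = u i := by
      choose v hv using hu
      have h2 : ∀ i, ∃ N : ℕ, (u i, v i) ∈ LinearMap.range (T (gv r (g D) s ε w N)) :=
        fun i => mem_span_N (hv i)
      choose m hm using h2
      refine ⟨Finset.univ.sup m, fun i => ?_⟩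
      obtain ⟨c, hc⟩ := range_mono (Finset.le_sup (Finset.mem_univ i)) (hm i)
      exact ⟨c, by rw [hc]⟩
    obtain ⟨N, hN⟩ := h1
    choose c hc using hN
    have hLI : LinearIndependent ℚ c := by
      have e1 : u = (LinearMap.fst ℚ ℂ ℂ ∘ₗ T (gv r (g D) s ε w N)) ∘ c := by
        funext i
        exact (hc i).symm
      rw [e1] at hi
      exact hi.of_comp _
    have h2 := hDG hDEG D hD r hr s hs ε hε N n c hLI f hf hf0 hfD
    have e2 : (fun a => ∑ i, (c a i : ℂ) * yy r (g D) s ε i) = u := by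
      funext a
      rw [← hc a, T_fst]
    rwa [e2] at h2
  · -- lower bound
    intro U hU hf
    obtain ⟨N, hN⟩ := fin_le hU hf
    have e1 : (U.comap (T (gv r (g D) s ε w N))).map (T (gv r (g D) s ε w N)) = U := by
      rw [Submodule.map_comap_eq, inf_eq_right.2 hN]
    have e2 : finrank ℚ (U.comap (T (gv r (g D) s ε w N))) = finrank ℚ U := by
      conv_rhs => rw [← e1]
      exact (LinearEquiv.finrank_eq (Submodule.equivMapOfInjective _ (T_inj hw N) _))
    obtain ⟨f, hf1, hf2⟩ := hRK r hr (g D) hmono hpos s hs ε hε N (U.comap (T (gv r (g D) s ε w N)))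
    rw [← e2]
    have h3 : M.Indep (range fun a => ∑ i, (f a i : ℂ) * yy r (g D) s ε i) := by
      rw [AlgebraicIndependent.matroid_indep_iff]
      exact AlgebraicIndependent.coe_range hf2
    have h4 : (range fun a => ∑ i, (f a i : ℂ) * yy r (g D) s ε i) ⊆
        Prod.fst '' (U : Set (ℂ × ℂ)) := by
      rintro _ ⟨a, rfl⟩
      exact ⟨T (gv r (g D) s ε w N) (f a), hf1 a, T_fst N (f a)⟩
    have h5 := h3.encard_le_eRk_of_subset h4
    rw [← Set.image_univ, hf2.injective.encard_image, Set.encard_univ] at h5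
    simpa using h5
  · -- upper bound
    intro k
    refine ⟨LinearMap.range (T (gv r (g D) s ε w k)), range_le k, inferInstance, ?_, ?_⟩
    · rw [LinearMap.finrank_range_of_inj (T_inj hw k), finrank_fin_fun]
    · have hsub : Prod.fst '' (LinearMap.range (T (gv r (g D) s ε w k)) : Set (ℂ × ℂ)) ⊆
          M.closure ((fun k => (s k : ℂ)) '' Iio (r k)) := by
        rintro _ ⟨_, ⟨c, rfl⟩, rfl⟩
        exact fst_le hr hε k c
      calc M.eRk (Prod.fst '' (LinearMap.range (T (gv r (g D) s ε w k)) : Set (ℂ × ℂ)))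
          ≤ M.eRk (M.closure ((fun k => (s k : ℂ)) '' Iio (r k))) := M.eRk_mono hsub
        _ = M.eRk ((fun k => (s k : ℂ)) '' Iio (r k)) := M.eRk_closure_eq _
        _ ≤ ((fun k => (s k : ℂ)) '' Iio (r k)).encard := M.eRk_le_encard _
        _ ≤ (Iio (r k)).encard := Set.encard_image_le _ _
        _ = (r k : ℕ) := by
            have : (Iio (r k) : Set ℕ) = (Finset.range (r k) : Set ℕ) := by
              ext; simp
            rw [this, Set.encard_coe_eq_coe_finsetCard, Finset.card_range]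

end Pool.Agent.Helper17.IL
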